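import Pool.Agent.L0h7.KF.Stm
import Pool.Agent.L0h19.KN.STG

/-! # Project KF (helper7): a class which is trivial over the colimit ring is trivial at some stage
(module STR), by helper55 -/

set_option autoImplicit false
set_option linter.all false

open CategoryTheory

noncomputable section

namespace Pool.Agent.L0h55.KF

open Pool.Agent.Y75.NK Pool.Agent.L0h7.KN Pool.Agent.L0h7.KF
open Pool.Agent.L0h19.KN (kclass_congr)

theorem gmap_comp {A B C : Type} [Ring A] [Ring B] [Ring C] {E H : Type} [Group E] [Group H]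
    (θ : A →+* B) (η : B →+* C) (f : E →* H) :
    gmap (η.comp θ) f = (MonoidAlgebra.mapRingHom H η).comp (gmap θ f) := by
  unfold gmap
  rw [MonoidAlgebra.mapRingHom_comp, RingHom.comp_assoc]

theorem ev2_map {r m n d : ℕ} (M : FMat r m n d) {A B : Type} [Ring A] [Ring B]
    (θ : Zp r →+* A) (η : A →+* B) {G : GrpCat.{0}} (f : fm n ⟶ G) :
    (ev2 M θ f).map (MonoidAlgebra.mapRingHom ((EF m).obj G) η) = ev2 M (η.comp θ) f := by
  unfold ev2
  rw [gmap_comp, Matrix.map_map]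
  rfl

/-- **Module STR.** -/
theorem t_STR : S_STR := by
  intro hN hCFR hFC r m n d M D B c hD P f θ hT
  obtain ⟨hidem, hcls⟩ := hT
  have hcomp : ∀ {i j : ℕ} (h : i ⟶ j), D.map h ≫ c j = c i := fun h => hD.comp h
  have hR : RCol (D ⋙ cg ((EF m).obj P)) ((cg ((EF m).obj P)).obj B)
      (fun i => (cg ((EF m).obj P)).map (c i)) := hCFR _ D B c hD
  -- the matrix is idempotent at some stage
  have hentry : ∀ a b : Fin d, ∃ (j : ℕ) (h : 0 ⟶ j),
      MonoidAlgebra.mapRingHom ((EF m).obj P) (D.map h).hom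
        ((ev2 M θ f * ev2 M θ f - ev2 M θ f) a b) = 0 := by
    intro a b
    have h1 : MonoidAlgebra.mapRingHom ((EF m).obj P) (c 0).hom
        ((ev2 M θ f * ev2 M θ f - ev2 M θ f) a b) = 0 := by
      have h2 : (ev2 M θ f * ev2 M θ f - ev2 M θ f).map
          (MonoidAlgebra.mapRingHom ((EF m).obj P) (c 0).hom) = 0 := by
        rw [Matrix.map_sub _ (map_sub _), Matrix.map_mul, ev2_map, hidem, sub_self]
      exact congrFun (congrFun h2 a) b
    exact hR.inj 0 _ h1
  choose J hJ hJ0 using hentry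
  obtain ⟨j0, hj0⟩ : ∃ j0 : ℕ, ∀ a b, J a b ≤ j0 :=
    ⟨Finset.univ.sup fun a => Finset.univ.sup fun b => J a b, fun a b =>
      (Finset.le_sup (f := fun b => J a b) (Finset.mem_univ b)).trans
        (Finset.le_sup (f := fun a => Finset.univ.sup fun b => J a b) (Finset.mem_univ a))⟩
  let h0 : (0 : ℕ) ⟶ j0 := homOfLE (Nat.zero_le _)
  have hidem0 : ev2 M ((D.map h0).hom.comp θ) f * ev2 M ((D.map h0).hom.comp θ) f =
      ev2 M ((D.map h0).hom.comp θ) f := by
    rw [← sub_eq_zero, ← ev2_map, ← Matrix.map_mul, ← Matrix.map_sub _ (map_sub _)]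
    ext1 a b
    rw [Matrix.map_apply]
    have h1 : h0 = hJ a b ≫ homOfLE (hj0 a b) := Subsingleton.elim _ _
    have h2 : MonoidAlgebra.mapRingHom ((EF m).obj P) (D.map h0).hom =
        (MonoidAlgebra.mapRingHom ((EF m).obj P) (D.map (homOfLE (hj0 a b))).hom).comp
          (MonoidAlgebra.mapRingHom ((EF m).obj P) (D.map (hJ a b)).hom) := by
      rw [← MonoidAlgebra.mapRingHom_comp, h1, Functor.map_comp, RingCat.hom_comp]
    rw [h2, RingHom.comp_apply, hJ0 a b, map_zero]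
    rfl
  -- its class
  have hK := hFC m (D ⋙ cg P) ((cg P).obj B) (fun i => (cg P).map (c i)) (hCFR P D B c hD)
  have hx : ((Kneg m).map ((cg P).map (c j0))).hom
      (kclass (D.obj j0) m P ⟨d, ev2 M ((D.map h0).hom.comp θ) f, hidem0⟩) = 0 := by
    have h1 := hN (D.obj j0) B (c j0).hom m P ⟨d, ev2 M ((D.map h0).hom.comp θ) f, hidem0⟩
    have h2 : ((Kneg m).map ((cg P).map (c j0))).hom
        (kclass (D.obj j0) m P ⟨d, ev2 M ((D.map h0).hom.comp θ) f, hidem0⟩) =
        kclass B m P (Idem.map (MonoidAlgebra.mapRingHom ((EF m).obj P) (c j0).hom)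
          ⟨d, ev2 M ((D.map h0).hom.comp θ) f, hidem0⟩) := h1.symm
    refine h2.trans (Eq.trans ?_ hcls)
    refine kclass_congr B m P _ _ ?_
    change (ev2 M ((D.map h0).hom.comp θ) f).map _ = _
    rw [ev2_map, ← RingHom.comp_assoc, ← RingCat.hom_comp, hcomp]
  obtain ⟨j, h, hz⟩ := hK.inj j0 _ hx
  have hcc : (D.map (h0 ≫ h)).hom.comp θ = (D.map h).hom.comp ((D.map h0).hom.comp θ) := by
    rw [Functor.map_comp, RingCat.hom_comp, RingHom.comp_assoc]
  have hidem1 : ev2 M ((D.map (h0 ≫ h)).hom.comp θ) f * ev2 M ((D.map (h0 ≫ h)).hom.comp θ) f =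
      ev2 M ((D.map (h0 ≫ h)).hom.comp θ) f := by
    rw [hcc, ← ev2_map, ← Matrix.map_mul, hidem0]
  refine ⟨j, h0 ≫ h, hidem1, ?_⟩
  have hz' : ((Kneg m).map (RingCat.ofHom (MonoidAlgebra.mapRingHom P (D.map h).hom))).hom
      (kclass (D.obj j0) m P ⟨d, ev2 M ((D.map h0).hom.comp θ) f, hidem0⟩) = 0 := hz
  rw [← hN (D.obj j0) (D.obj j) (D.map h).hom m P
    ⟨d, ev2 M ((D.map h0).hom.comp θ) f, hidem0⟩] at hz'
  refine Eq.trans ?_ hz'
  refine kclass_congr (D.obj j) m P _ _ ?_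
  change _ = (ev2 M ((D.map h0).hom.comp θ) f).map _
  rw [ev2_map, hcc]

end Pool.Agent.L0h55.KF
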