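import Pool.Agent.L0h7.KF.Stm

/-! # Project KF (helper7): the limit of homomorphisms to fields along an ultrafilter (module ULT),
by helper55 -/

set_option autoImplicit false
set_option linter.all false

namespace Pool.Agent.L0h55.KF

open Pool.Agent.L0h7.KF

/-- the ideal of the polynomials which are zero for almost all `i` -/
def lim (r : ℕ) (u : Ultrafilter ℕ) (k : ℕ → Type) [∀ i, Field (k i)] (θ : ∀ i, Zp r →+* k i) :
    Ideal (Zp r) where
  carrier := {p | ∀ᶠ i in (u : Filter ℕ), θ i p = 0}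
  add_mem' := by
    intro a b ha hb
    have ha' : ∀ᶠ i in (u : Filter ℕ), θ i a = 0 := ha
    have hb' : ∀ᶠ i in (u : Filter ℕ), θ i b = 0 := hb
    show ∀ᶠ i in (u : Filter ℕ), θ i (a + b) = 0
    filter_upwards [ha', hb'] with i h1 h2
    rw [map_add, h1, h2, add_zero]
  zero_mem' := by
    show ∀ᶠ i in (u : Filter ℕ), θ i 0 = 0
    exact Filter.Eventually.of_forall fun i => map_zero _
  smul_mem' := by
    intro c a ha
    have ha' : ∀ᶠ i in (u : Filter ℕ), θ i a = 0 := ha
    show ∀ᶠ i in (u : Filter ℕ), θ i (c • a) = 0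
    filter_upwards [ha'] with i h1
    rw [smul_eq_mul, map_mul, h1, mul_zero]

lemma mem_lim {r : ℕ} {u : Ultrafilter ℕ} {k : ℕ → Type} [∀ i, Field (k i)]
    {θ : ∀ i, Zp r →+* k i} {p : Zp r} :
    p ∈ lim r u k θ ↔ ∀ᶠ i in (u : Filter ℕ), θ i p = 0 := Iff.rfl

/-- **Module ULT.** -/
theorem t_ULT : S_ULT := by
  intro r u hu k _ θ S hS0 hS
  have hprime : (lim r u k θ).IsPrime := by
    refine ⟨?_, ?_⟩
    · rw [Ideal.ne_top_iff_one, mem_lim]
      intro h
      obtain ⟨i, hi⟩ := h.exists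
      rw [map_one] at hi
      exact one_ne_zero hi
    · intro a b hab
      rw [mem_lim] at hab
      have h1 : ∀ᶠ i in (u : Filter ℕ), θ i a = 0 ∨ θ i b = 0 := by
        filter_upwards [hab] with i h
        rw [map_mul] at h
        exact mul_eq_zero.1 h
      exact Ultrafilter.eventually_or.1 h1
  refine ⟨lim r u k θ, hprime, fun p => mem_lim, ?_⟩
  obtain ⟨c, hc⟩ : ∃ c, c = ringChar (FractionRing (Zp r ⧸ lim r u k θ)) := ⟨_, rfl⟩
  rw [← hc]
  by_cases hc0 : c = 0
  · rw [hc0]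
    exact hS0
  haveI : CharP (FractionRing (Zp r ⧸ lim r u k θ)) c := by
    rw [hc]
    exact ringChar.charP _
  have hcp : c.Prime :=
    (CharP.char_is_prime_or_zero (FractionRing (Zp r ⧸ lim r u k θ)) c).resolve_right hc0
  have h1 : ((c : ℕ) : FractionRing (Zp r ⧸ lim r u k θ)) = 0 := CharP.cast_eq_zero _ c
  have h2 : ((c : ℕ) : Zp r ⧸ lim r u k θ) = 0 := by
    apply IsFractionRing.injective (Zp r ⧸ lim r u k θ) (FractionRing (Zp r ⧸ lim r u k θ))
    rw [map_natCast, h1, map_zero]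
  have h3 : ((c : ℕ) : Zp r) ∈ lim r u k θ := by
    rw [← Ideal.Quotient.eq_zero_iff_mem, map_natCast]
    exact h2
  rw [mem_lim] at h3
  have h4 : ∀ᶠ i in (u : Filter ℕ), c ≤ i := hu (Filter.eventually_ge_atTop c)
  obtain ⟨i, hi, hci⟩ := (h3.and h4).exists
  rw [map_natCast] at hi
  have h5 : ringChar (k i) ∣ c := ringChar.dvd hi
  have h6 : ringChar (k i) = c := by
    rcases (Nat.dvd_prime hcp).1 h5 with h | h
    · exact absurd h (CharP.ringChar_ne_one)
    · exact h
  rcases hS i with h | h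
  · rwa [h6] at h
  · rw [h6] at h
    omega

end Pool.Agent.L0h55.KF
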